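import Pool.Agent.TH935.HM5
import Pool.Agent.V11290.FD.Box

/-!
# The least primes in almost all residue classes, for all moduli near `t α + s`, for almost every `α` of a set of
positive Fourier dimension

Let `μ` be ANY compactly supported probability measure on the line whose Fourier transform decays like some power, with an
arbitrarily small exponent `σ > 0`. (Such measures live on many sets of Lebesgue measure zero and of arbitrarily small
dimension: on the badly approximable numbers with bounded partial quotients (Kaufman), on the sets of `τ`-well approximable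
numbers (Kaufman), on limit sets of convex cocompact Fuchsian groups (Bourgain, Dyatlov), on random Salem sets, ...). For
almost every `α` ALL moduli `a ≥ t / log ^ κ t` near `t α + s`, `t = t j`, `s = s j`, have the property `Good`: the least
prime `p(a, b)` is at most `lam φ(a) log a` for all but `(1 + ε) φ(a) / lam` of the reduced classes `b`.

Proof: the law of a random rounding of `t α` is approximated by a finite family of integers (with multiplicities); its
additive energy of order `p ≥ 1 / σ` is nearly minimal since the characteristic function of the rounding is small away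
from the integers (a Fourier series with the coefficients `sinc²`). The theorem of the library TH935.HM on thin families of
moduli (starting files) is applied to these families, the result is carried back to the measure, and then the lemma of
Borel and Cantelli is applied.
-/

set_option autoImplicit false

namespace Pool.Agent.Results.MP_5b0a7e_nt.FourierDecay

open Finset MeasureTheory

open Classical in
/-- The number of the `b` with `0 ≤ b < a` and `gcd(a, b) = 1` for which no prime `p ≤ y` is congruent to `b` modulo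
`a`; for `a ≥ 2` this is the number of the reduced classes with `p(a, b) > y`. -/
noncomputable def late (a : ℕ) (y : ℝ) : ℕ :=
  ((range a).filter (fun b => Nat.Coprime b a ∧ ∀ p : ℕ, p.Prime → (p : ℝ) ≤ y → ¬ p % a = b)).card

/-- `ψ(y; a, b) = ∑_{n ≤ y, n ≡ b mod a} Λ(n)` for `0 ≤ b < a` -/
noncomputable def psiAP (y : ℝ) (a b : ℕ) : ℝ :=
  ∑ n ∈ (Icc 1 ⌊y⌋₊).filter (fun n => n % a = b), ArithmeticFunction.vonMangoldt n

open Classical in
/-- The number of the `b` with `0 ≤ b < a` and `gcd(a, b) = 1` with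
`|ψ(lam φ(a) log a; a, b) - lam log a| ≥ η lam log a`. -/
noncomputable def off (a : ℕ) (lam η : ℝ) : ℕ :=
  ((range a).filter (fun b => Nat.Coprime b a ∧ η * (lam * Real.log a) ≤
    |psiAP (lam * (Nat.totient a * Real.log a)) a b - lam * Real.log a|)).card

/-- For all real `1 ≤ lam ≤ (log a) ^ κ`: the least prime `p(a, b)` is larger than `lam φ(a) log a` for at most
`(1 + ε) φ(a) / lam` of the reduced classes `b`, and for all `η > 0` at most `(1 + ε) φ(a) / (η² lam)` of the reduced classes
`b` have `|ψ(lam φ(a) log a; a, b) - lam log a| ≥ η lam log a`. -/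
def Good (ε : ℝ) (κ a : ℕ) : Prop :=
  ∀ lam : ℝ, 1 ≤ lam → lam ≤ Real.log a ^ κ →
    (late a (lam * (Nat.totient a * Real.log a)) : ℝ) ≤ (1 + ε) * Nat.totient a / lam ∧
    ∀ η : ℝ, 0 < η → (off a lam η : ℝ) ≤ (1 + ε) * Nat.totient a / (lam * η ^ 2)

lemma good_iff (ε : ℝ) (κ a : ℕ) : Good ε κ a ↔ Pool.Agent.TH935.HM.Lp ε κ a a := Iff.rfl

lemma good_mono (ε ε' : ℝ) (κ κ' a : ℕ) (hε : ε ≤ ε') (hκ : κ ≤ κ') (ha : 1 ≤ Real.log a) (h : Good ε κ' a) : Good ε' κ a := by
  intro lam h1 h2
  obtain ⟨h3, h4⟩ := h lam h1 (h2.trans (pow_le_pow_right₀ ha hκ))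
  refine ⟨h3.trans ?_, fun η hη => (h4 η hη).trans ?_⟩
  · gcongr
  · gcongr

/-- Let `μ` be a probability measure on `[-B, B]` with `|μ^(ξ)| ≤ C |ξ| ^ (-σ)` for `|ξ| ≥ 1` and some `C` and `σ > 0`.
Let `t j ≥ 2` and `|s j| ≤ B t j` be real numbers, where `j` ranges over a set `J`, such that the sum of the
`1 / log ^ V (t j)` converges for some `V`. Then for `μ`-almost every `α`, for all `A`, `κ` and `ε > 0` and for all but finitely
many `j`: ALL moduli `a ≥ t j / log ^ κ (t j)` with `|a - (t j α + s j)| ≤ log ^ A (t j)` have the property `Good`: for all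
real `1 ≤ lam ≤ (log a) ^ κ` one has `p(a, b) ≤ lam φ(a) log a` for all reduced classes `b` with at most
`(1 + ε) φ(a) / lam` exceptions (for `lam = C₁ log a`: `p(a, b) ≤ C₁ φ(a) (log a)²` with at most
`(1 + ε) φ(a) / (C₁ log a)` exceptions), and for all `η > 0` one has
`|ψ(lam φ(a) log a; a, b) - lam log a| < η lam log a` with at most `(1 + ε) φ(a) / (η² lam)` exceptions. -/
theorem result (μ : Measure ℝ) [IsProbabilityMeasure μ] (B : ℝ) (hμ : ∀ᵐ α ∂μ, |α| ≤ B)
    (C σ : ℝ) (hσ : 0 < σ) (hdec : ∀ ξ : ℝ, 1 ≤ |ξ| → ‖charFun μ ξ‖ ≤ C * |ξ| ^ (-σ))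
    (J : Type) (t s : J → ℝ) (ht : ∀ j, 2 ≤ t j) (hs : ∀ j, |s j| ≤ B * t j)
    (hsum : ∃ V : ℕ, Summable fun j => 1 / Real.log (t j) ^ V) :
    ∀ᵐ α ∂μ, ∀ (A κ : ℕ) (ε : ℝ), 0 < ε →
      {j | ¬ ∀ a : ℕ, |(a : ℝ) - (t j * α + s j)| ≤ Real.log (t j) ^ A → t j / Real.log (t j) ^ κ ≤ a →
        Good ε κ a}.Finite := by
  classical
  obtain ⟨V, hV⟩ := hsum
  obtain ⟨M, hM⟩ := exists_nat_ge (2 * (|B| + 1) + 8)
  have hM1 : 1 ≤ M := by
    have : (1 : ℝ) ≤ M := by linarith [abs_nonneg B]
    exact_mod_cast this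
  have h := Pool.Agent.V11290.FD.abs_box μ B hμ C σ hσ hdec t s ht hs V hV 1 M hM1 (by push_cast; rw [one_mul]; exact hM)
    (fun i j n => 0 < n → t j / Real.log (t j) ^ (Nat.unpair i).1 ≤ n →
      Good (1 / (((Nat.unpair i).2 : ℝ) + 1)) (Nat.unpair i).1 n.toNat) (by
    intro i p U hp
    obtain ⟨κ, hκ⟩ : ∃ κ, κ = (Nat.unpair i).1 := ⟨_, rfl⟩
    obtain ⟨m, hm⟩ : ∃ m, m = (Nat.unpair i).2 := ⟨_, rfl⟩
    rw [← hκ, ← hm]
    have hε1 : 1 / ((m : ℝ) + 1) ≤ 1 := by
      rw [div_le_one (by positivity)]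
      linarith [(Nat.cast_nonneg m : (0 : ℝ) ≤ m)]
    obtain ⟨N₀, h0⟩ := Pool.Agent.TH935.HM.lp_fam p 2 (κ + 1) U (1 / ((m : ℝ) + 1)) (by positivity) hε1
    obtain ⟨t1, ht1⟩ := Pool.Agent.V11290.FD.log_pow_le κ (1 / 3) (by norm_num)
    obtain ⟨N₁, hN₁⟩ := Pool.Agent.V11290.FD.ceil_large M hM1 (max t1 (Real.exp (2 * M)))
    refine ⟨N₀ + N₁, fun j hj x v hx hv hE 𝒮 h𝒮 hbad => ?_⟩
    have htj := ht j
    have htt := hN₁ (t j) (by omega)
    have q1 : t1 ≤ t j := (le_max_left _ _).trans htt
    have q2 : Real.exp (2 * M) ≤ t j := (le_max_right _ _).trans htt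
    have hlog : 2 * (M : ℝ) ≤ Real.log (t j) := by
      rw [Real.le_log_iff_exp_le (by linarith)]
      exact q2
    have hMr : (1 : ℝ) ≤ M := by exact_mod_cast hM1
    have hl0 : 0 < Real.log (t j) := by linarith
    have hlp := ht1 (t j) q1
    obtain ⟨N, hN⟩ : ∃ N : ℕ, N = M * ⌈t j⌉₊ := ⟨_, rfl⟩
    rw [← hN] at hj hv hE ⊢
    have hNt : (N : ℝ) ≤ 2 * M * t j := by
      rw [hN]
      push_cast
      have := (Nat.ceil_lt_add_one (by linarith : 0 ≤ t j)).le
      nlinarith
    have htN : t j ≤ N := by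
      rw [hN]
      push_cast
      have := Nat.le_ceil (t j)
      nlinarith
    have hlogN : Real.log (t j) ≤ Real.log N := Real.log_le_log (by linarith) htN
    refine h0 N (by omega) x v (fun n hn => ?_) hE 𝒮 h𝒮 (fun n hn => ?_)
    · have := hv n hn
      rwa [Nat.cast_one, one_mul] at this
    · have h1 := hbad n hn
      push Not at h1
      obtain ⟨h2, h3, h4⟩ := h1
      have e1 : (((v n).toNat : ℕ) : ℝ) = (v n : ℝ) := by
        have : (((v n).toNat : ℕ) : ℤ) = v n := Int.toNat_of_nonneg h2.le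
        exact_mod_cast this
      have h5 : t j ≤ (v n : ℝ) * Real.log (t j) ^ κ := by
        rwa [div_le_iff₀ (by positivity)] at h3
      have hv0 : (0 : ℝ) < v n := by exact_mod_cast h2
      refine ⟨h2, ?_, fun hG => h4 ?_⟩
      · rw [e1]
        calc (N : ℝ) ≤ 2 * M * t j := hNt
          _ ≤ Real.log (t j) * ((v n : ℝ) * Real.log (t j) ^ κ) := mul_le_mul hlog h5 (by linarith) hl0.le
          _ = (v n : ℝ) * Real.log (t j) ^ (κ + 1) := by ring
          _ ≤ _ := mul_le_mul_of_nonneg_left (pow_le_pow_left₀ hl0.le hlogN _) hv0.le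
      · refine good_mono _ _ κ (κ + 1) _ le_rfl (by omega) ?_ ((good_iff _ _ _).2 hG)
        rw [e1]
        have h6 : 3 ≤ (v n : ℝ) := by
          by_contra hcon
          push Not at hcon
          have hp0 : 0 < Real.log (t j) ^ κ := by positivity
          have h7 : (v n : ℝ) * Real.log (t j) ^ κ < 3 * Real.log (t j) ^ κ := mul_lt_mul_of_pos_right hcon hp0
          linarith
        rw [Real.le_log_iff_exp_le (by linarith)]
        linarith [Real.exp_one_lt_d9])
  filter_upwards [h] with α hα A κ ε hε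
  obtain ⟨m, hm⟩ := exists_nat_ge (1 / ε)
  have hε' : 1 / ((m : ℝ) + 1) ≤ ε := by
    rw [div_le_iff₀ hε] at hm
    rw [div_le_iff₀ (by positivity)]
    nlinarith
  obtain ⟨t1, ht1⟩ := Pool.Agent.V11290.FD.log_pow_le κ (1 / 3) (by norm_num)
  have hsmall := Pool.Agent.V11290.FD.small_fin t ht V hV (max t1 3)
  refine ((hα A (Nat.pair κ m)).union hsmall).subset ?_
  intro j hj
  rw [Set.mem_ofPred_eq] at hj
  by_cases h3 : t j < max t1 3
  · right
    exact h3
  left
  rw [not_lt] at h3
  have q1 : t1 ≤ t j := (le_max_left _ _).trans h3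
  have q2 : 3 ≤ t j := (le_max_right _ _).trans h3
  rw [Set.mem_ofPred_eq]
  intro hall
  apply hj
  intro a ha hat
  have hl0 : 0 < Real.log (t j) := Real.log_pos (by linarith)
  have hp0 : 0 < Real.log (t j) ^ κ := by positivity
  have h6 : 3 ≤ (a : ℝ) := by
    rw [div_le_iff₀ hp0] at hat
    have hlp := ht1 (t j) q1
    by_contra hcon
    push Not at hcon
    have h7 : (a : ℝ) * Real.log (t j) ^ κ < 3 * Real.log (t j) ^ κ := mul_lt_mul_of_pos_right hcon hp0
    linarith
  have ha0 : 0 < a := by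
    have : (0 : ℝ) < a := by linarith
    exact_mod_cast this
  have h1 := hall (a : ℤ) (by exact_mod_cast ha) (by exact_mod_cast ha0)
  rw [Nat.unpair_pair] at h1
  have h2 := h1 (by exact_mod_cast hat)
  rw [Int.toNat_natCast] at h2
  refine good_mono _ _ κ κ a hε' le_rfl ?_ h2
  rw [Real.le_log_iff_exp_le (by linarith)]
  linarith [Real.exp_one_lt_d9]

end Pool.Agent.Results.MP_5b0a7e_nt.FourierDecay
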