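import Pool.Agent.Results.MP_5b0a7e_nt.BelowSquareAllButFew
import Pool.Agent.V11001.KM.Nat

/-!
# The least prime in progressions below the square of the modulus, for all residues near the powers of `x`

For every residue `b` in the windows of relative size `x ^ ((θ - 1) ν n)` around the numbers `u x ^ (ν n)`, where `x > 1` is
outside a set of small Hausdorff dimension, and for all `D` from `2 b ^ (14 / 27)` up to `exp (b ^ c)`, almost all moduli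
`a ∈ (D, 2 D]` coprime to `b` have a prime `p ≡ b` modulo `a` with `p ≤ a ^ (27 / 14 + ε)`.
-/

set_option autoImplicit false
set_option maxHeartbeats 4000000

namespace Pool.Agent.Results.MP_5b0a7e_nt.ResiduesNearPowers

open Finset Filter MeasureTheory
open BelowSquareAllButFew (badModuli)

open Classical in
/-- the exceptional residues at the scale `2 ^ j` -/
noncomputable def B (ε C : ℝ) (U j : ℕ) : Finset ℕ :=
  (Icc 1 ⌊((2 ^ j : ℕ) : ℝ) ^ (27 / 14 : ℝ)⌋₊).filter (fun b : ℕ =>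
    C * ((2 ^ j : ℕ) : ℝ) / Real.log ((2 ^ j : ℕ) : ℝ) ^ U < ((badModuli (27 / 14 + ε) (2 ^ j) b).card : ℝ))

/-- the moduli of `(D, 2 D]` are in two dyadic blocks -/
lemma bad_sub (lam : ℝ) (D b j : ℕ) (h1 : 2 ^ j ≤ D) (h2 : D < 2 ^ (j + 1)) :
    badModuli lam D b ⊆ badModuli lam (2 ^ j) b ∪ badModuli lam (2 ^ (j + 1)) b := by
  classical
  intro a ha
  have e1 : 2 ^ (j + 1) = 2 * 2 ^ j := by rw [pow_succ]; ring
  unfold badModuli at ha ⊢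
  rw [Finset.mem_filter, Finset.mem_Ioc] at ha
  rw [Finset.mem_union, Finset.mem_filter, Finset.mem_filter, Finset.mem_Ioc, Finset.mem_Ioc]
  obtain ⟨⟨h3, h4⟩, h5⟩ := ha
  by_cases h : a ≤ 2 * 2 ^ j
  · exact Or.inl ⟨⟨by omega, h⟩, h5⟩
  · exact Or.inr ⟨⟨by omega, by omega⟩, h5⟩

theorem main {ε : ℝ} {C : ℝ} (hC : 0 < C) {U : ℕ}
    (H : ∀ j : ℕ, 2 ≤ j → ((B ε C U j).card : ℝ) ≤ C * Real.log ((2 ^ j : ℕ) : ℝ) ^ (2 * U + 10)) {θ c : ℝ}
    (hθ1 : θ < 1) (hc : 0 < c) {ν : ℕ → ℝ} (hν : Tendsto (fun n : ℕ => ν n / Real.log n) atTop atTop) {u : ℝ}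
    (hu : 0 < u) :
    ∃ E : Set ℝ, dimH E ≤ ENNReal.ofReal ((2 * U + 12) * c / (1 - θ)) ∧ ∀ x : ℝ, 1 < x → x ∉ E →
      ∃ n₀ : ℕ, ∀ n : ℕ, n₀ ≤ n → ∀ b : ℕ, |(b : ℝ) - u * x ^ ν n| ≤ x ^ (θ * ν n) →
        ∀ D : ℕ, (b : ℝ) ≤ ((D : ℝ) / 2) ^ (27 / 14 : ℝ) → Real.log D ≤ (b : ℝ) ^ c →
          ((badModuli (27 / 14 + ε) D b).card : ℝ) ≤ 3 * 2 ^ U * C * D / Real.log D ^ U := by
  classical
  have hl21 : Real.log 2 ≤ 1 := by
    have := Real.log_two_lt_d9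
    linarith
  have hl20 : 1 / 2 < Real.log 2 := by
    have := Real.log_two_gt_d9
    linarith
  set S : Set ℕ := {b | ∃ j : ℕ, 2 ≤ j ∧ (j : ℝ) ≤ 3 * (b : ℝ) ^ c ∧ b ∈ B ε C U j} with hS
  set bad : ℕ → Finset ℕ := fun N => (Finset.Icc 2 ⌊3 * (N : ℝ) ^ c⌋₊).biUnion (B ε C U) with hbaddef
  obtain ⟨N₀, hN₀⟩ : ∃ N₀ : ℕ, ∀ N : ℕ, N₀ ≤ N → C * 3 ^ (2 * U + 11) ≤ (N : ℝ) ^ c ∧ 1 ≤ N := by
    have h1 : Tendsto (fun N : ℕ => (N : ℝ) ^ c) atTop atTop :=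
      (tendsto_rpow_atTop hc).comp tendsto_natCast_atTop_atTop
    exact ((h1.eventually_ge_atTop _).and (eventually_ge_atTop 1)).exists_forall_of_atTop
  have hcard : ∀ N : ℕ, N₀ ≤ N → ((bad N).card : ℝ) ≤ (N : ℝ) ^ ((2 * U + 12) * c) := by
    intro N hN
    obtain ⟨h1, h2⟩ := hN₀ N hN
    have hN0 : (0 : ℝ) < N := by exact_mod_cast h2
    set M : ℕ := ⌊3 * (N : ℝ) ^ c⌋₊ with hM
    have hM1 : (M : ℝ) ≤ 3 * (N : ℝ) ^ c := Nat.floor_le (by positivity)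
    have h3 : ((bad N).card : ℝ) ≤ ∑ j ∈ Finset.Icc 2 M, ((B ε C U j).card : ℝ) := by
      exact_mod_cast Finset.card_biUnion_le
    have h4 : ∀ j ∈ Finset.Icc 2 M, ((B ε C U j).card : ℝ) ≤ C * (M : ℝ) ^ (2 * U + 10) := by
      intro j hj
      rw [Finset.mem_Icc] at hj
      refine (H j hj.1).trans ?_
      apply mul_le_mul_of_nonneg_left _ hC.le
      apply pow_le_pow_left₀ (Real.log_nonneg (by exact_mod_cast Nat.one_le_two_pow))
      push_cast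
      rw [Real.log_pow]
      have h5 : (j : ℝ) ≤ M := by exact_mod_cast hj.2
      have h6 : (0 : ℝ) ≤ j := Nat.cast_nonneg j
      nlinarith
    have h5 : ∑ j ∈ Finset.Icc 2 M, ((B ε C U j).card : ℝ) ≤ M * (C * (M : ℝ) ^ (2 * U + 10)) := by
      refine (Finset.sum_le_sum h4).trans ?_
      rw [Finset.sum_const, nsmul_eq_mul]
      apply mul_le_mul_of_nonneg_right _ (by positivity)
      rw [Nat.card_Icc]
      exact_mod_cast (by omega : M + 1 - 2 ≤ M)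
    have h6 : (M : ℝ) * (C * (M : ℝ) ^ (2 * U + 10)) = C * (M : ℝ) ^ (2 * U + 11) := by ring
    have h7 : C * (M : ℝ) ^ (2 * U + 11) ≤ C * (3 * (N : ℝ) ^ c) ^ (2 * U + 11) :=
      mul_le_mul_of_nonneg_left (pow_le_pow_left₀ (Nat.cast_nonneg M) hM1 _) hC.le
    have h8 : C * (3 * (N : ℝ) ^ c) ^ (2 * U + 11) = C * 3 ^ (2 * U + 11) * ((N : ℝ) ^ c) ^ (2 * U + 11) := by
      rw [mul_pow]
      ring
    have h9 : (N : ℝ) ^ ((2 * (U : ℝ) + 12) * c) = (N : ℝ) ^ c * ((N : ℝ) ^ c) ^ (2 * U + 11) := by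
      rw [← pow_succ', ← Real.rpow_natCast ((N : ℝ) ^ c), ← Real.rpow_mul hN0.le]
      congr 1
      push_cast
      ring
    rw [h9]
    calc ((bad N).card : ℝ) ≤ C * 3 ^ (2 * U + 11) * ((N : ℝ) ^ c) ^ (2 * U + 11) := by linarith
      _ ≤ (N : ℝ) ^ c * ((N : ℝ) ^ c) ^ (2 * U + 11) := mul_le_mul_of_nonneg_right h1 (by positivity)
  obtain ⟨E, hE1, hE2⟩ := Pool.Agent.V11001.KM.powers_of_bad hν hu (s := (2 * U + 12) * c) (by positivity) hθ1 S bad N₀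
    hcard 0 (fun i _ m hm _ h2 => by
      obtain ⟨j, h3, h4, h5⟩ := hm
      rw [hbaddef]
      simp only [Finset.mem_biUnion, Finset.mem_Icc]
      refine ⟨j, ⟨h3, Nat.le_floor (h4.trans ?_)⟩, h5⟩
      have h6 : (m : ℝ) ≤ ((2 ^ (i + 1) : ℕ) : ℝ) := by exact_mod_cast h2
      have h7 := Real.rpow_le_rpow (Nat.cast_nonneg m) h6 hc.le
      linarith)
  refine ⟨E, hE1, fun x hx hxE => ?_⟩
  obtain ⟨n₀, hn₀⟩ := hE2 x hx hxE
  obtain ⟨n₁, hn₁⟩ := Pool.Agent.V11001.KM.large_of_near hν hu hθ1 hx 4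
  refine ⟨max n₀ n₁, fun n hn b hb D hbD hlogD => ?_⟩
  have hbS : b ∉ S := fun h => absurd (hn₀ n ((le_max_left _ _).trans hn) b h) (not_lt.2 hb)
  have hb4 : (4 : ℝ) ≤ b := hn₁ n ((le_max_right _ _).trans hn) b hb
  have hbc : 1 ≤ (b : ℝ) ^ c := Real.one_le_rpow (by linarith) hc.le
  -- `D` is large
  have hD4 : (4 : ℝ) ≤ D := by
    by_contra hcon
    rw [not_le] at hcon
    have h1 : ((D : ℝ) / 2) ^ (27 / 14 : ℝ) ≤ 2 ^ (27 / 14 : ℝ) :=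
      Real.rpow_le_rpow (by positivity) (by linarith) (by norm_num)
    have h2 : (2 : ℝ) ^ (27 / 14 : ℝ) < 2 ^ (2 : ℝ) := Real.rpow_lt_rpow_of_exponent_lt (by norm_num) (by norm_num)
    have h3 : (2 : ℝ) ^ (2 : ℝ) = 4 := by norm_num
    linarith
  have hD4' : 4 ≤ D := by exact_mod_cast hD4
  set j : ℕ := Nat.log 2 D with hj
  have hj1 : 2 ^ j ≤ D := Nat.pow_log_le_self 2 (by omega)
  have hj2 : D < 2 ^ (j + 1) := Nat.lt_pow_succ_log_self (by norm_num) D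
  have hj3 : 2 ≤ j := by
    by_contra hcon
    have h1 : j + 1 ≤ 2 := by omega
    have h2 : 2 ^ (j + 1) ≤ 2 ^ 2 := Nat.pow_le_pow_right (by norm_num) h1
    omega
  have hj1' : ((2 ^ j : ℕ) : ℝ) ≤ D := by exact_mod_cast hj1
  have hj2' : (D : ℝ) < 2 * ((2 ^ j : ℕ) : ℝ) := by
    have h1 : (D : ℝ) < ((2 ^ (j + 1) : ℕ) : ℝ) := by exact_mod_cast hj2
    have h2 : ((2 ^ (j + 1) : ℕ) : ℝ) = 2 * ((2 ^ j : ℕ) : ℝ) := by
      push_cast
      rw [pow_succ]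
      ring
    linarith
  have hP0 : (0 : ℝ) < ((2 ^ j : ℕ) : ℝ) := by positivity
  have hlogj : Real.log ((2 ^ j : ℕ) : ℝ) = j * Real.log 2 := by
    push_cast
    rw [Real.log_pow]
  have hjlog : (j : ℝ) * Real.log 2 ≤ Real.log D := by
    rw [← hlogj]
    exact Real.log_le_log hP0 hj1'
  have hjb : ((j + 1 : ℕ) : ℝ) ≤ 3 * (b : ℝ) ^ c := by
    have h1 : (j : ℝ) * (1 / 2) ≤ j * Real.log 2 := mul_le_mul_of_nonneg_left hl20.le (Nat.cast_nonneg j)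
    push_cast
    linarith
  have hjb' : ((j : ℕ) : ℝ) ≤ 3 * (b : ℝ) ^ c := by
    push_cast at hjb
    linarith
  have hb1 : 1 ≤ b := by
    have : (1 : ℝ) ≤ b := by linarith
    exact_mod_cast this
  have hmem : ∀ i : ℕ, j ≤ i → b ∈ Icc 1 ⌊((2 ^ i : ℕ) : ℝ) ^ (27 / 14 : ℝ)⌋₊ := by
    intro i hi
    rw [Finset.mem_Icc]
    refine ⟨hb1, Nat.le_floor (hbD.trans ?_)⟩
    apply Real.rpow_le_rpow (by positivity) _ (by norm_num)
    have h1 : ((2 ^ j : ℕ) : ℝ) ≤ ((2 ^ i : ℕ) : ℝ) := by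
      exact_mod_cast Nat.pow_le_pow_right (by norm_num) hi
    linarith
  have hgood : ∀ i : ℕ, j ≤ i → (i : ℝ) ≤ 3 * (b : ℝ) ^ c →
      ((badModuli (27 / 14 + ε) (2 ^ i) b).card : ℝ) ≤ C * ((2 ^ i : ℕ) : ℝ) / Real.log ((2 ^ i : ℕ) : ℝ) ^ U := by
    intro i hi hib
    by_contra hcon
    rw [not_le] at hcon
    apply hbS
    refine ⟨i, by omega, hib, ?_⟩
    unfold B
    rw [Finset.mem_filter]
    exact ⟨hmem i hi, hcon⟩
  have g1 := hgood j le_rfl hjb'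
  have g2 := hgood (j + 1) (by omega) hjb
  have g3 : ((badModuli (27 / 14 + ε) D b).card : ℝ) ≤
      (badModuli (27 / 14 + ε) (2 ^ j) b).card + (badModuli (27 / 14 + ε) (2 ^ (j + 1)) b).card := by
    exact_mod_cast (Finset.card_le_card (bad_sub _ D b j hj1 hj2)).trans (Finset.card_union_le _ _)
  have hlogD0 : 0 < Real.log D := Real.log_pos (by linarith)
  have hhalf : Real.log D / 2 ≤ Real.log ((2 ^ j : ℕ) : ℝ) := by
    have h1 : Real.log D ≤ Real.log (2 * ((2 ^ j : ℕ) : ℝ)) := Real.log_le_log (by linarith) hj2'.le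
    rw [Real.log_mul (by norm_num) hP0.ne', hlogj] at h1
    rw [hlogj]
    have h2 : (2 : ℝ) ≤ j := by exact_mod_cast hj3
    nlinarith
  have hL0 : 0 < Real.log D / 2 := by linarith
  have hlogj0 : 0 < Real.log ((2 ^ j : ℕ) : ℝ) := by linarith
  have hlogj1 : Real.log ((2 ^ j : ℕ) : ℝ) ≤ Real.log ((2 ^ (j + 1) : ℕ) : ℝ) := by
    apply Real.log_le_log hP0
    exact_mod_cast Nat.pow_le_pow_right (by norm_num) (Nat.le_succ j)
  have hpow : ((2 ^ (j + 1) : ℕ) : ℝ) = 2 * ((2 ^ j : ℕ) : ℝ) := by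
    push_cast
    rw [pow_succ]
    ring
  have k1 : C * ((2 ^ j : ℕ) : ℝ) / Real.log ((2 ^ j : ℕ) : ℝ) ^ U ≤ C * D / (Real.log D / 2) ^ U := by
    apply div_le_div₀ (by positivity) (mul_le_mul_of_nonneg_left hj1' hC.le) (by positivity)
    exact pow_le_pow_left₀ hL0.le hhalf U
  have k2 : C * ((2 ^ (j + 1) : ℕ) : ℝ) / Real.log ((2 ^ (j + 1) : ℕ) : ℝ) ^ U ≤ 2 * (C * D) / (Real.log D / 2) ^ U := by
    rw [hpow]
    rw [hpow] at hlogj1
    apply div_le_div₀ (by positivity) _ (by positivity)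
    · exact pow_le_pow_left₀ hL0.le (hhalf.trans hlogj1) U
    · have := mul_le_mul_of_nonneg_left hj1' hC.le
      linarith
  have k3 : C * D / (Real.log D / 2) ^ U + 2 * (C * D) / (Real.log D / 2) ^ U = 3 * 2 ^ U * C * D / Real.log D ^ U := by
    rw [div_pow]
    field_simp
    ring
  linarith

/-- **Theorem.** For all `ε > 0` and `U` there is `C` such that for all `θ < 1` and `c > 0`, all real sequences `ν` with
`ν n / log n → ∞` and all countable sets `V` there is a set `E` of Hausdorff dimension at most `(2 U + 12) c / (1 - θ)` such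
that for `x > 1` outside `E`, `u > 0` in `V`, all large `n`, ALL natural numbers `b` with
`|b - u x ^ (ν n)| ≤ x ^ (θ ν n)` and all `D` with `b ≤ (D / 2) ^ (27 / 14)` and `log D ≤ b ^ c`, at most `C D / (log D) ^ U` of
the moduli `a ∈ (D, 2 D]` coprime to `b` have no prime `p ≡ b` modulo `a`, `p ≤ a ^ (27 / 14 + ε)`. -/
theorem result : ∀ ε : ℝ, 0 < ε → ∀ U : ℕ, ∃ C : ℝ, 0 < C ∧ ∀ θ c : ℝ, θ < 1 → 0 < c → ∀ ν : ℕ → ℝ,
    Tendsto (fun n : ℕ => ν n / Real.log n) atTop atTop → ∀ V : Set ℝ, V.Countable →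
      ∃ E : Set ℝ, dimH E ≤ ENNReal.ofReal ((2 * U + 12) * c / (1 - θ)) ∧ ∀ x : ℝ, 1 < x → x ∉ E → ∀ u ∈ V, 0 < u →
        ∃ n₀ : ℕ, ∀ n : ℕ, n₀ ≤ n → ∀ b : ℕ, |(b : ℝ) - u * x ^ ν n| ≤ x ^ (θ * ν n) →
          ∀ D : ℕ, (b : ℝ) ≤ ((D : ℝ) / 2) ^ (27 / 14 : ℝ) → Real.log D ≤ (b : ℝ) ^ c →
            ((badModuli (27 / 14 + ε) D b).card : ℝ) ≤ C * D / Real.log D ^ U := by
  classical
  intro ε hε U
  obtain ⟨C, hC, h⟩ := BelowSquareAllButFew.result ε hε U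
  refine ⟨3 * 2 ^ U * C, by positivity, fun θ c hθ1 hc ν hν V hV => ?_⟩
  have H : ∀ j : ℕ, 2 ≤ j → ((B ε C U j).card : ℝ) ≤ C * Real.log ((2 ^ j : ℕ) : ℝ) ^ (2 * U + 10) := by
    intro j hj
    have h1 : 3 ≤ 2 ^ j := by
      have : 2 ^ 2 ≤ 2 ^ j := Nat.pow_le_pow_right (by norm_num) hj
      omega
    have h2 := h (2 ^ j) h1
    unfold B
    convert h2
  have hcV : Countable V := hV.to_subtype
  have hall : ∀ q : {u : V // 0 < (u : ℝ)}, _ := fun q => main (θ := θ) hC H hθ1 hc hν q.2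
  choose E hE1 hE2 using hall
  refine ⟨⋃ q, E q, ?_, fun x hx hxE u hu hu0 => ?_⟩
  · rw [dimH_iUnion]
    exact iSup_le hE1
  · exact hE2 ⟨⟨u, hu⟩, hu0⟩ x hx (fun g => hxE (Set.mem_iUnion.2 ⟨_, g⟩))

end Pool.Agent.Results.MP_5b0a7e_nt.ResiduesNearPowers
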