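import Pool.Agent.Results.MP_5b0a7e_nt.BoundedlyManyResidues
import Pool.Agent.V35.WN

/-!
# Least primes in progressions for ALL residues near `α N`, for almost every `α`, and most prime moduli up to `N ^ θ`

Let `θ < 14/27` (so `θ` may be larger than `1/2`). For an integer `b` let `badModuli θ N b` be the set of the primes
`q ≤ N ^ θ`, `q ∤ b`, for which the least prime `≡ b (mod q)` is larger than `N`. The starting theorem
`BoundedlyManyResidues` says that `∑ 1/q` over these `q` is at most `κ` for all but boundedly many `|b| ≤ N`. Let `N n` be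
integers and `R n > 0` such that `∑ (R n / N n) ^ D` converges, `0 < D`. For all `α ∈ (-1, 1)` outside ONE set of
Hausdorff dimension at most `D`, which is a null set if `D ≤ 1`, all `θ < 14/27` and all `κ > 0`, for all large `n`, ALL
integers `b` with `|b - α N n| ≤ R n` satisfy `∑_{q ∈ badModuli θ (N n) b} 1/q ≤ κ`. For example `N n = c ^ n` and
`R n = N n / n ^ 2` (almost all `α`), or `R n = (N n) ^ ρ` with any `ρ < 1`: then the exceptional set has dimension zero.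
So for all residues of such windows the least prime in the class is at most `q ^ (27/14 + ε)` for most primes `q`; under the
generalised Riemann hypothesis it is at most `q ^ (2 + ε)`.
-/

set_option autoImplicit false

open MeasureTheory Filter Topology Finset

namespace Pool.Agent.Results.MP_5b0a7e_nt.WindowsOfResidues

open BoundedlyManyResidues Pool.Agent.V35.WN

/-- the sum of `1/q` over the bad moduli -/
noncomputable def sumBad (θ : ℝ) (N : ℕ) (b : ℤ) : ℝ := ∑ q ∈ badModuli θ N b, 1 / (q : ℝ)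

lemma sumBad_mono {θ θ' : ℝ} (h : θ ≤ θ') {N : ℕ} (hN : 1 ≤ N) (b : ℤ) : sumBad θ N b ≤ sumBad θ' N b := by
  unfold sumBad
  refine Finset.sum_le_sum_of_subset_of_nonneg ?_ (fun _ _ _ => by positivity)
  intro q hq
  rw [mem_badModuli] at hq ⊢
  refine ⟨⟨hq.1.1, hq.1.2.trans ?_⟩, hq.2⟩
  exact Nat.floor_le_floor (Real.rpow_le_rpow_of_exponent_le (by exact_mod_cast hN) h)

/-- the exceptional residues at `N`, divided by `N` -/
noncomputable def exc (θ κ : ℝ) (N : ℕ) : Finset ℝ :=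
  ((Icc (-(N : ℤ)) N).filter (fun b : ℤ => κ < sumBad θ N b)).image fun b : ℤ => (b : ℝ) / N

/-- **Theorem.** (1) Let `N n ≥ 2` be integers, `R n > 0` and `D > 0` such that the sum of the `(R n / N n) ^ D` converges.
There is a set `E` of Hausdorff dimension at most `D`, and of Lebesgue measure zero if `D ≤ 1`, such that for all
`α ∈ (-1, 1)` outside `E`, all `θ < 14/27` and `κ > 0` and all large `n` the sum of `1/q` over the primes `q ≤ (N n) ^ θ`,
`q ∤ b`, without primes `p ≤ N n`, `p ≡ b (mod q)`, is at most `κ` for ALL integers `b` with `|b - α N n| ≤ R n`. (2) For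
`N n = c ^ (n + 1)`, `c ≥ 2`, and `R n = (N n) ^ ρ`, `ρ < 1`, the set `E` can be chosen of dimension zero. -/
theorem result :
    (∀ (N : ℕ → ℕ) (R : ℕ → ℝ) (D : ℝ), (∀ n, 2 ≤ N n) → (∀ n, 0 < R n) → 0 < D →
      Summable (fun n => (R n / N n) ^ D) →
      ∃ E : Set ℝ, dimH E ≤ ENNReal.ofReal D ∧ (D ≤ 1 → volume E = 0) ∧
        ∀ α : ℝ, |α| < 1 → α ∉ E → ∀ θ κ : ℝ, θ < 14 / 27 → 0 < κ → ∃ n₀ : ℕ, ∀ n : ℕ, n₀ ≤ n →
          ∀ b : ℤ, |(b : ℝ) - α * N n| ≤ R n → ∑ q ∈ badModuli θ (N n) b, 1 / (q : ℝ) ≤ κ) ∧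
    (∀ (c : ℕ) (ρ : ℝ), 2 ≤ c → ρ < 1 →
      ∃ E : Set ℝ, dimH E = 0 ∧
        ∀ α : ℝ, |α| < 1 → α ∉ E → ∀ θ κ : ℝ, θ < 14 / 27 → 0 < κ → ∃ n₀ : ℕ, ∀ n : ℕ, n₀ ≤ n →
          ∀ b : ℤ, |(b : ℝ) - α * (c ^ (n + 1) : ℕ)| ≤ ((c ^ (n + 1) : ℕ) : ℝ) ^ ρ →
            ∑ q ∈ badModuli θ (c ^ (n + 1)) b, 1 / (q : ℝ) ≤ κ) := by
  classical
  have main : ∀ (N : ℕ → ℕ) (R : ℕ → ℝ) (D : ℝ), (∀ n, 2 ≤ N n) → (∀ n, 0 < R n) → 0 < D →
      Summable (fun n => (R n / N n) ^ D) →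
      ∃ E : Set ℝ, dimH E ≤ ENNReal.ofReal D ∧ (D ≤ 1 → volume E = 0) ∧
        ∀ α : ℝ, |α| < 1 → α ∉ E → ∀ θ κ : ℝ, θ < 14 / 27 → 0 < κ → ∃ n₀ : ℕ, ∀ n : ℕ, n₀ ≤ n →
          ∀ b : ℤ, |(b : ℝ) - α * N n| ≤ R n → ∑ q ∈ badModuli θ (N n) b, 1 / (q : ℝ) ≤ κ := by
    intro N R D hN hR hD hs
    have hNp : ∀ n, (0 : ℝ) < N n := fun n => by
      have := hN n
      exact_mod_cast (by omega : 0 < N n)
    have hr : ∀ n, 0 < R n / N n := fun n => div_pos (hR n) (hNp n)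
    have hr0 := tendsto_of_summable hr hD hs
    have hbound : ∀ (θ : {θ : ℚ // (θ : ℝ) < 14 / 27}) (k : ℕ), ∃ C : ℝ, ∀ n,
        ((exc (θ.1 : ℝ) (1 / ((k : ℝ) + 1)) (N n)).card : ℝ) ≤ C := by
      intro θ k
      obtain ⟨C, hC⟩ := BoundedlyManyResidues.result (θ.1 : ℝ) (1 / ((k : ℝ) + 1)) θ.2 (by positivity)
      refine ⟨C, fun n => le_trans ?_ (hC (N n) (hN n))⟩
      unfold exc sumBad
      exact_mod_cast Finset.card_image_le
    choose C hC using hbound
    refine ⟨⋃ θ : {θ : ℚ // (θ : ℝ) < 14 / 27}, ⋃ k : ℕ,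
      Often (fun n => exc (θ.1 : ℝ) (1 / ((k : ℝ) + 1)) (N n)) (fun n => R n / N n), ?_, ?_, ?_⟩
    · rw [dimH_iUnion]
      refine iSup_le fun θ => ?_
      rw [dimH_iUnion]
      exact iSup_le fun k => dim_often _ _ hr hD (C θ k) (hC θ k) hs
    · intro hD1
      rw [measure_iUnion_null_iff]
      intro θ
      rw [measure_iUnion_null_iff]
      intro k
      refine null_often _ _ hr (C θ k) (hC θ k) ?_
      refine Summable.of_norm_bounded_eventually_nat hs ?_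
      filter_upwards [hr0.eventually (ge_mem_nhds (zero_lt_one' ℝ))] with n hn
      rw [Real.norm_of_nonneg (hr n).le]
      calc R n / N n = (R n / N n) ^ (1 : ℝ) := (Real.rpow_one _).symm
        _ ≤ (R n / N n) ^ D := Real.rpow_le_rpow_of_exponent_ge (hr n) hn hD1
    · intro α hα1 hαE θ κ hθ hκ
      obtain ⟨θ', hθ1, hθ2⟩ := exists_rat_btwn hθ
      obtain ⟨k, hk⟩ := exists_nat_one_div_lt hκ
      have hα' : α ∉ Often (fun n => exc (θ' : ℝ) (1 / ((k : ℝ) + 1)) (N n)) (fun n => R n / N n) :=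
        fun h => hαE (Set.mem_iUnion.2 ⟨⟨θ', hθ2⟩, Set.mem_iUnion.2 ⟨k, h⟩⟩)
      have hα'' : ∃ n1 : ℕ, ∀ n : ℕ, n1 ≤ n → ∀ x ∈ exc (θ' : ℝ) (1 / ((k : ℝ) + 1)) (N n), R n / N n < |x - α| := by
        by_contra hcon
        apply hα'
        intro n1
        push Not at hcon
        obtain ⟨n, h1, x, h2, h3⟩ := hcon n1
        exact ⟨n, h1, x, h2, h3⟩
      obtain ⟨n1, hn1⟩ := hα''
      obtain ⟨n2, hn2⟩ := eventually_atTop.1 (hr0.eventually (ge_mem_nhds (by linarith : (0 : ℝ) < 1 - |α|)))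
      refine ⟨max n1 n2, fun n hn b hb => ?_⟩
      have hNn := hNp n
      have h1 := hn1 n ((le_max_left _ _).trans hn)
      have h2 := hn2 n ((le_max_right _ _).trans hn)
      have hle1 : sumBad θ (N n) b ≤ sumBad (θ' : ℝ) (N n) b :=
        sumBad_mono hθ1.le (by have := hN n; omega) b
      refine hle1.trans (le_trans ?_ hk.le)
      by_contra hcon
      push Not at hcon
      have hbN : |(b : ℝ)| ≤ N n := by
        have h3 : |(b : ℝ)| ≤ |(b : ℝ) - α * N n| + |α * N n| := by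
          have := abs_add_le ((b : ℝ) - α * N n) (α * N n)
          rwa [sub_add_cancel] at this
        rw [abs_mul, abs_of_pos hNn] at h3
        rw [div_le_iff₀ hNn] at h2
        nlinarith
      have hbI : b ∈ Icc (-((N n : ℕ) : ℤ)) (N n) := by
        rw [Finset.mem_Icc]
        have h3 := abs_le.1 hbN
        constructor
        · exact_mod_cast h3.1
        · exact_mod_cast h3.2
      have hmem : (b : ℝ) / N n ∈ exc (θ' : ℝ) (1 / ((k : ℝ) + 1)) (N n) := by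
        unfold exc
        rw [Finset.mem_image]
        exact ⟨b, Finset.mem_filter.2 ⟨hbI, hcon⟩, rfl⟩
      have h4 := h1 _ hmem
      have h5 : |(b : ℝ) / N n - α| = |(b : ℝ) - α * N n| / N n := by
        rw [← abs_of_pos hNn, ← abs_div, abs_of_pos hNn]
        congr 1
        field_simp
      rw [h5] at h4
      exact absurd ((div_lt_div_iff_of_pos_right hNn).1 h4) (not_lt.2 hb)
  refine ⟨main, fun c ρ hc hρ => ?_⟩
  have hc1 : (1 : ℝ) < c := by exact_mod_cast (by omega : 1 < c)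
  have hc0 : (0 : ℝ) < c := by linarith
  have hsumm : ∀ k : ℕ, Summable (fun n : ℕ => (((c ^ (n + 1) : ℕ) : ℝ) ^ ρ / ((c ^ (n + 1) : ℕ) : ℝ)) ^ (1 / ((k : ℝ) + 1))) := by
    intro k
    have h1 : ∀ n : ℕ, (((c ^ (n + 1) : ℕ) : ℝ) ^ ρ / ((c ^ (n + 1) : ℕ) : ℝ)) ^ (1 / ((k : ℝ) + 1)) =
        ((c : ℝ) ^ ((ρ - 1) / ((k : ℝ) + 1))) ^ (n + 1) := by
      intro n
      have h2 : (0 : ℝ) < ((c ^ (n + 1) : ℕ) : ℝ) := by positivity
      rw [← Real.rpow_sub_one h2.ne', ← Real.rpow_mul h2.le]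
      push_cast
      rw [← Real.rpow_natCast ((c : ℝ) ^ ((ρ - 1) / ((k : ℝ) + 1))) (n + 1), ← Real.rpow_natCast (c : ℝ) (n + 1),
        ← Real.rpow_mul hc0.le, ← Real.rpow_mul hc0.le]
      congr 1
      ring
    simp_rw [h1]
    have h3 : (c : ℝ) ^ ((ρ - 1) / ((k : ℝ) + 1)) < 1 :=
      Real.rpow_lt_one_of_one_lt_of_neg hc1 (div_neg_of_neg_of_pos (by linarith) (by positivity))
    have h4 := (summable_geometric_of_lt_one (Real.rpow_nonneg hc0.le _) h3)
    exact (summable_nat_add_iff 1).2 h4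
  choose E hE1 _ hE3 using fun k : ℕ => main (fun n => c ^ (n + 1)) (fun n => ((c ^ (n + 1) : ℕ) : ℝ) ^ ρ)
    (1 / ((k : ℝ) + 1)) (fun n => by
      calc 2 ≤ c := hc
        _ = c ^ 1 := (pow_one c).symm
        _ ≤ c ^ (n + 1) := Nat.pow_le_pow_right (by omega) (by omega)) (fun n => by positivity) (by positivity) (hsumm k)
  refine ⟨⋂ k, E k, ?_, fun α hα1 hαE => ?_⟩
  · refine le_antisymm ?_ zero_le
    refine le_of_forall_gt fun x hx => ?_
    rcases eq_or_ne x ⊤ with rfl | hxt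
    · exact lt_of_le_of_lt ((dimH_mono (Set.iInter_subset _ 0)).trans (hE1 0)) ENNReal.ofReal_lt_top
    · have hx0 : 0 < x.toReal := ENNReal.toReal_pos hx.ne' hxt
      obtain ⟨k, hk⟩ := exists_nat_one_div_lt hx0
      refine lt_of_le_of_lt ((dimH_mono (Set.iInter_subset _ k)).trans (hE1 k)) ?_
      rw [← ENNReal.ofReal_toReal hxt]
      exact (ENNReal.ofReal_lt_ofReal_iff hx0).2 hk
  · have hk : ∃ k, α ∉ E k := by
      by_contra hcon
      push Not at hcon
      exact hαE (Set.mem_iInter.2 hcon)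
    obtain ⟨k, hk⟩ := hk
    exact hE3 k α hα1 hk

end Pool.Agent.Results.MP_5b0a7e_nt.WindowsOfResidues
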